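import Pool.Agent.Helper16.OL.Omega

/-!
# `Ω`-stable diffeomorphisms which are hyperbolic transversally to oriented leaves

`V n = ℝⁿ`, `DiffM n N r = Diff^r(N)`, `strongTop n N r` is its `C^r` topology
(`Pool/Agent/H718R2/G0.lean`); `OmegaStable`, `Omega`, `Per` (`Pool/Agent/TH80/OMS/Defs.lean`,
`SymDefs.lean`): `Ω`-stability, nonwandering set, periodic points; `CR F` is the chain recurrent set
(`Pool/Agent/R774/OS2.lean`).

`HypCR L F Φ e B` (`Pool/Agent/Helper16/OL/PersistCR.lean`), with `L ⊆ {0, …, k-1}`: `Φ` is a smooth action
of `ℝᵏ` on `N`, locally free on `CR F`; on `CR F` the map `F` is hyperbolic transversally to the orbits: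
the quadratic forms `Q_x(v) = B_x (De v, De v)` (of any signature) increase strictly under `DF` on all
vectors which are not tangent to the orbits; for the points `y` of a neighbourhood of `CR F`
* the coordinates `i ∉ L` act as circles, and `F` maps the orbit of `y` to the orbit of `F y` by a `LeafMap`:
  `F (Φ t y) = Φ (τ t) (F y)`, where `(τ t)_i = g_i (t_i)` with an arbitrary continuous monotone `g_i`,
  `g_i 0 = 0`, for `i ∈ L`, and `(τ t)_i - t_i` depends only on the `t_j`, `j < i`, for `i ∉ L`;
* `DF` maps the vectors tangent to the orbit of `y` to vectors tangent to the orbit of `F y`, and `Q` does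
  not change in the direction of the orbits.
Along the leaves `F` may contract and expand arbitrarily strongly: no domination is required.
-/

set_option autoImplicit false

open scoped Manifold ContDiff Topology

namespace Pool.Agent.Results.MP_814647_an.OrientedLeaves

open Pool.Agent.H718R2.G Pool.Agent.R774.ClStmt Pool.Agent.R774.OS Pool.Agent.TH80.OMS
open Pool.Agent.Helper16.OL

/-- The chain recurrent set of `G` is hyperbolic transversally to oriented leaves. -/
def LeafHyp (n : ℕ) (N : Type) [TopologicalSpace N] [ChartedSpace (V n) N] (G : N → N) : Prop :=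
  ∃ (k m : ℕ) (L : Set (Fin k)) (Φ : V k → N → N) (e : N → V m)
    (B : N → V m →L[ℝ] V m →L[ℝ] ℝ), HypCR (n := n) L G Φ e B

/-- Let `N` be a closed manifold, `1 ≤ r ≤ ∞`, and let `F ∈ Diff^r(N)` be `Ω`-stable. If arbitrarily
`C^r`-close to `F` there are diffeomorphisms `G` (for instance `G = F`) whose chain recurrent set is
hyperbolic transversally to oriented leaves, then the periodic points of `F` are dense in the nonwandering
set of `F`. -/
theorem result {n : ℕ} {N : Type} [TopologicalSpace N] [T2Space N] [CompactSpace N]
    [ChartedSpace (V n) N] [IsManifold (𝓡 n) ∞ N] (r : ℕ∞) (hr : 1 ≤ r) (F : DiffM n N r)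
    (hF : OmegaStable n N r F)
    (h : ∀ U : Set (DiffM n N r), IsOpen[strongTop n N r] U → F ∈ U → ∃ G ∈ U, LeafHyp n N G) :
    Omega F = closure (Per F) :=
  omega_dense_lim r hr hF h

end Pool.Agent.Results.MP_814647_an.OrientedLeaves
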